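import Pool.Agent.Y723.Z8.Stm
import Pool.Agent.W586.RK.UB
import Pool.Agent.W655.RK.Full

/-! Project Z8, part WGT: the sums of the weights over the primes. -/

set_option autoImplicit false

namespace Pool.Agent.Y776.Z8

open Finset Pool.Agent.W262.RK Pool.Agent.W307.RT Pool.Agent.TH841.PT Pool.Agent.Y723.Z8

theorem jr_neg_one {p : ℕ} (hp : p % 2 = 1) : Jr (-1) p = if p % 4 = 1 then 1 else -1 := by
  unfold Jr
  rw [jacobiSym.at_neg_one (Nat.odd_iff.2 hp), ZMod.χ₄_nat_eq_if_mod_four,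
    if_neg (by omega : ¬ p % 2 = 0)]
  split_ifs <;> simp

theorem jr_two {p : ℕ} (hp : p % 2 = 1) :
    Jr 2 p = if p % 8 = 1 ∨ p % 8 = 7 then 1 else -1 := by
  unfold Jr
  rw [jacobiSym.at_two (Nat.odd_iff.2 hp), ZMod.χ₈_nat_eq_if_mod_eight,
    if_neg (by omega : ¬ p % 2 = 0)]
  split_ifs <;> simp

theorem jr_neg_two {p : ℕ} (hp : p % 2 = 1) :
    Jr (-2) p = if p % 8 = 1 ∨ p % 8 = 3 then 1 else -1 := by
  unfold Jr
  rw [jacobiSym.at_neg_two (Nat.odd_iff.2 hp), ZMod.χ₈'_nat_eq_if_mod_eight,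
    if_neg (by omega : ¬ p % 2 = 0)]
  split_ifs <;> simp

theorem jr_one (p : ℕ) : Jr 1 p = 1 := by
  unfold Jr
  rw [jacobiSym.one_left]
  norm_num

theorem rr_add (j : Fin 7) {p : ℕ} (hp : p % 2 = 1) :
    rr8 (j, false) p + rr8 (j, true) p =
      if j.val < 4 then 1 else if j.val = 4 then 1 + Jr (-1) p else 1 + Jr 2 p := by
  rw [jr_neg_one hp, jr_two hp]
  unfold rr8
  by_cases h1 : j.val < 4
  · simp [h1]
  · by_cases h2 : j.val = 4
    · simp [h2]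
      split_ifs <;> norm_num
    · simp only [h1, h2, if_false, if_true, Bool.false_eq_true]
      have h8 : p % 8 = 1 ∨ p % 8 = 3 ∨ p % 8 = 5 ∨ p % 8 = 7 := by omega
      rcases h8 with h | h | h | h <;> simp [h] <;> norm_num

theorem rr_sub (j : Fin 7) {p : ℕ} (hp : p % 2 = 1) :
    rr8 (j, false) p - rr8 (j, true) p =
      if j.val < 4 then 1 else if j.val = 4 then 1 + Jr (-1) p else Jr (-1) p + Jr (-2) p := by
  rw [jr_neg_one hp, jr_neg_two hp]
  unfold rr8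
  by_cases h1 : j.val < 4
  · simp [h1]
  · by_cases h2 : j.val = 4
    · simp [h2]
      split_ifs <;> norm_num
    · simp only [h1, h2, if_false, if_true, Bool.false_eq_true]
      have h8 : p % 8 = 1 ∨ p % 8 = 3 ∨ p % 8 = 5 ∨ p % 8 = 7 := by omega
      rcases h8 with h | h | h | h
      · have h4 : p % 4 = 1 := by omega
        simp [h, h4]; norm_num
      · have h4 : ¬ p % 4 = 1 := by omega
        simp [h, h4]
      · have h4 : p % 4 = 1 := by omega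
        simp [h, h4]
      · have h4 : ¬ p % 4 = 1 := by omega
        simp [h, h4]; norm_num

/-- the weights as sums of characters -/
theorem s8_form (i : I8) : ∃ (κ κ' : ℤ) (c : ℝ), (κ = 1 ∨ κ = -1 ∨ κ = 2 ∨ κ = -2) ∧
    (κ' = 1 ∨ κ' = -1 ∨ κ' = 2 ∨ κ' = -2) ∧ (c = 0 ∨ c = 1) ∧
    ∀ p : ℕ, p % 2 = 1 → s8 i p = (Jr κ p + c * Jr κ' p) / 4 := by
  by_cases h1 : i.1.1.1.val < 4
  · refine ⟨1, 1, 0, by simp, by simp, by simp, fun p hp => ?_⟩
    have ha := rr_add i.1.1.1 hp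
    have hb := rr_sub i.1.1.1 hp
    rw [if_pos h1] at ha hb
    unfold s8
    rw [jr_one]
    split_ifs <;> linarith
  · by_cases h2 : i.1.1.1.val = 4
    · refine ⟨1, -1, 1, by simp, by simp, by simp, fun p hp => ?_⟩
      have ha := rr_add i.1.1.1 hp
      have hb := rr_sub i.1.1.1 hp
      rw [if_neg h1, if_pos h2] at ha hb
      unfold s8
      rw [jr_one]
      split_ifs <;> linarith
    · by_cases h3 : i.1.1.2.1 = (false, false) ∨ i.1.1.2.2 = (false, false)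
      · refine ⟨1, 2, 1, by simp, by simp, by simp, fun p hp => ?_⟩
        have ha := rr_add i.1.1.1 hp
        rw [if_neg h1, if_neg h2] at ha
        unfold s8
        rw [jr_one, if_pos h3]
        linarith
      · refine ⟨-1, -2, 1, by simp, by simp, by simp, fun p hp => ?_⟩
        have hb := rr_sub i.1.1.1 hp
        rw [if_neg h1, if_neg h2] at hb
        unfold s8
        rw [if_neg h3]
        linarith

/-- the absolute weights as sums of characters -/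
theorem g8_form (i : I8) : ∃ (κ' : ℤ) (c : ℝ), (κ' = -1 ∨ κ' = 2 ∨ κ' = -2) ∧
    (c = 0 ∨ c = 1) ∧ ∀ p : ℕ, p % 2 = 1 → g8 i p = (1 + c * Jr κ' p) / 4 := by
  by_cases h1 : i.1.1.1.val < 4
  · refine ⟨-1, 0, by simp, by simp, fun p hp => ?_⟩
    have ha := rr_add i.1.1.1 hp
    rw [if_pos h1] at ha
    unfold g8
    linarith
  · by_cases h2 : i.1.1.1.val = 4
    · refine ⟨-1, 1, by simp, by simp, fun p hp => ?_⟩
      have ha := rr_add i.1.1.1 hp
      rw [if_neg h1, if_pos h2] at ha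
      unfold g8
      linarith
    · refine ⟨2, 1, by simp, by simp, fun p hp => ?_⟩
      have ha := rr_add i.1.1.1 hp
      rw [if_neg h1, if_neg h2] at ha
      unfold g8
      linarith

/-- the weights of the exceptional letters -/
theorem s8_N (i : I8) (hi : i ∈ N8s) {p : ℕ} (hp : p % 2 = 1) :
    s8 i p = (Jr (-1) p + Jr (-2) p) / 4 := by
  simp only [N8s, mem_filter, mem_univ, true_and] at hi
  obtain ⟨h1, h2, h3⟩ := hi
  have hb := rr_sub i.1.1.1 hp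
  rw [if_neg (by omega), if_neg (by omega)] at hb
  unfold s8
  rw [if_neg (by push Not; exact ⟨h2, h3⟩)]
  linarith

theorem odd_of_mem {z y p : ℕ} (hz : 10 ≤ z) (hp : p ∈ PS z y) : p % 2 = 1 := by
  have h1 : p.Prime := (mem_filter.1 hp).2
  have h2 : z < p := (mem_Ioc.1 (mem_filter.1 hp).1).1
  rcases h1.eq_two_or_odd with h | h
  · omega
  · exact h

/-- Mertens -/
theorem mert (z : ℕ) (hz : 10 ≤ z) : ∃ C : ℝ, ∀ y : ℕ, z < y →
    |∑ p ∈ PS z y, (1 : ℝ) / (p : ℝ) - Real.log (Real.log y)| ≤ C := by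
  obtain ⟨C, hC⟩ := Pool.Agent.Helper256.KM.mertens_inv
  refine ⟨C + |∑ p ∈ (Icc 1 z).filter Nat.Prime, (1 : ℝ) / (p : ℝ)|, fun y hy => ?_⟩
  have h1 := hC y (by omega)
  have hsplit : ∑ p ∈ (Icc 1 y).filter Nat.Prime, (1 : ℝ) / (p : ℝ) =
      ∑ p ∈ (Icc 1 z).filter Nat.Prime, (1 : ℝ) / (p : ℝ) + ∑ p ∈ PS z y, (1 : ℝ) / (p : ℝ) := by
    rw [← sum_union]
    · refine sum_congr ?_ fun _ _ => rfl
      ext p
      simp only [PS, mem_union, mem_filter, mem_Icc, mem_Ioc]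
      constructor
      · rintro ⟨⟨h1, h2⟩, h3⟩
        rcases Nat.lt_or_ge z p with h | h
        · exact Or.inr ⟨⟨h, h2⟩, h3⟩
        · exact Or.inl ⟨⟨h1, h⟩, h3⟩
      · rintro (⟨⟨h1, h2⟩, h3⟩ | ⟨⟨h1, h2⟩, h3⟩)
        · exact ⟨⟨h1, by omega⟩, h3⟩
        · exact ⟨⟨by omega, h2⟩, h3⟩
    · rw [disjoint_left]
      intro p hp hp'
      simp only [PS, mem_filter, mem_Icc, mem_Ioc] at hp hp'
      omega
  rw [hsplit] at h1
  have h2 := abs_le.1 h1
  have h3 := neg_abs_le (∑ p ∈ (Icc 1 z).filter Nat.Prime, (1 : ℝ) / (p : ℝ))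
  have h4 := le_abs_self (∑ p ∈ (Icc 1 z).filter Nat.Prime, (1 : ℝ) / (p : ℝ))
  rw [abs_le]
  constructor <;> linarith [h2.1, h2.2]

theorem chr_all (h : S_CHR) (z : ℕ) : ∃ C : ℝ, 0 ≤ C ∧
    ∀ κ : ℤ, (κ = -1 ∨ κ = 2 ∨ κ = -2) → ∀ y : ℕ, z < y →
      |∑ p ∈ PS z y, Jr κ p / (p : ℝ)| ≤ C := by
  obtain ⟨C1, h1⟩ := h (-1) (by simp) z
  obtain ⟨C2, h2⟩ := h 2 (by simp) z
  obtain ⟨C3, h3⟩ := h (-2) (by simp) z
  refine ⟨|C1| + |C2| + |C3|, by positivity, ?_⟩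
  have e1 := abs_nonneg C1
  have e2 := abs_nonneg C2
  have e3 := abs_nonneg C3
  rintro κ (rfl | rfl | rfl) y hy
  · exact (h1 y hy).trans (by linarith [le_abs_self C1])
  · exact (h2 y hy).trans (by linarith [le_abs_self C2])
  · exact (h3 y hy).trans (by linarith [le_abs_self C3])

theorem ub_all (z : ℕ) (hz : 10 ≤ z) : ∃ C : ℝ, 0 ≤ C ∧
    ∀ κ : ℤ, (κ = 1 ∨ κ = -1 ∨ κ = 2 ∨ κ = -2) →
    ∀ (y r : ℕ) (e : Bool), z < y → 1 < r → Squarefree r → (∀ p : ℕ, p.Prime → p ∣ r → z < p) →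
    ∑ p ∈ PS z y, Jr p r * Jr κ p * x4 e p / (p : ℝ) ≤ Real.log (Real.log r) + C := by
  obtain ⟨C0, h0⟩ := Pool.Agent.W586.RK.UB.ub 1 z (by norm_num) (by omega) (by simp; omega)
  obtain ⟨C1, h1⟩ := Pool.Agent.W586.RK.UB.ub (-1) z (by norm_num) (by omega) (by simp; omega)
  obtain ⟨C2, h2⟩ := Pool.Agent.W586.RK.UB.ub 2 z (by norm_num) (by omega) (by simp; omega)
  obtain ⟨C3, h3⟩ := Pool.Agent.W586.RK.UB.ub (-2) z (by norm_num) (by omega) (by simp; omega)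
  refine ⟨|C0| + |C1| + |C2| + |C3|, by positivity, ?_⟩
  have e0 := abs_nonneg C0
  have e1 := abs_nonneg C1
  have e2 := abs_nonneg C2
  have e3 := abs_nonneg C3
  rintro κ (rfl | rfl | rfl | rfl) y r e a1 a2 a3 a4
  · exact (h0 y r e a1 a2 a3 a4).trans (by linarith [le_abs_self C0])
  · exact (h1 y r e a1 a2 a3 a4).trans (by linarith [le_abs_self C1])
  · exact (h2 y r e a1 a2 a3 a4).trans (by linarith [le_abs_self C2])
  · exact (h3 y r e a1 a2 a3 a4).trans (by linarith [le_abs_self C3])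

theorem ll_nonneg {z r : ℕ} (hz : 10 ≤ z) (hr : 1 < r)
    (h : ∀ p : ℕ, p.Prime → p ∣ r → z < p) : 0 ≤ Real.log (Real.log r) := by
  obtain ⟨p, hp, hpr⟩ := Nat.exists_prime_and_dvd (by omega : r ≠ 1)
  have h1 := h p hp hpr
  have h2 : p ≤ r := Nat.le_of_dvd (by omega) hpr
  have h3 : (3 : ℝ) ≤ r := by
    have : 3 ≤ r := by omega
    exact_mod_cast this
  apply Real.log_nonneg
  rw [Real.le_log_iff_exp_le (by linarith)]
  linarith [Real.exp_one_lt_d9]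

theorem wgt_of (h : S_CHR) : S_WGT := by
  intro z hz
  obtain ⟨CM, hM⟩ := mert z hz
  obtain ⟨CC, hCC, hC⟩ := chr_all h z
  obtain ⟨CU, hCU, hU⟩ := ub_all z hz
  have hCM := abs_nonneg CM
  refine ⟨|CM| + CC + CU, ?_, ?_, ?_⟩
  · intro i y hy
    obtain ⟨κ, c, hκ, hc, hf⟩ := g8_form i
    have e1 : Sp (g8 i) z y = 1 / 4 * ∑ p ∈ PS z y, (1 : ℝ) / (p : ℝ) +
        c / 4 * ∑ p ∈ PS z y, Jr κ p / (p : ℝ) := by
      unfold Sp
      rw [mul_sum, mul_sum, ← sum_add_distrib]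
      refine sum_congr rfl fun p hp => ?_
      rw [hf p (odd_of_mem hz hp)]
      ring
    have h1 := abs_le.1 ((hM y hy).trans (le_abs_self CM))
    have h2 := abs_le.1 (hC κ hκ y hy)
    rw [e1, abs_le]
    rcases hc with rfl | rfl <;> constructor <;> linarith [h1.1, h1.2, h2.1, h2.2]
  · intro n hn y hy
    have e1 : Sp (s8 n) z y = 1 / 4 * ∑ p ∈ PS z y, Jr (-1) p / (p : ℝ) +
        1 / 4 * ∑ p ∈ PS z y, Jr (-2) p / (p : ℝ) := by
      unfold Sp
      rw [mul_sum, mul_sum, ← sum_add_distrib]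
      refine sum_congr rfl fun p hp => ?_
      rw [s8_N n hn (odd_of_mem hz hp)]
      ring
    have h1 := abs_le.1 (hC (-1) (by simp) y hy)
    have h2 := abs_le.1 (hC (-2) (by simp) y hy)
    rw [e1]
    linarith [h1.1, h1.2, h2.1, h2.2]
  · intro i y r e hy hr hsq hpr
    obtain ⟨κ, κ', c, hκ, hκ', hc, hf⟩ := s8_form i
    have e1 : ∑ p ∈ PS z y, s8 i p * (Jr p r * x4 e p) / (p : ℝ) =
        1 / 4 * ∑ p ∈ PS z y, Jr p r * Jr κ p * x4 e p / (p : ℝ) +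
        c / 4 * ∑ p ∈ PS z y, Jr p r * Jr κ' p * x4 e p / (p : ℝ) := by
      rw [mul_sum, mul_sum, ← sum_add_distrib]
      refine sum_congr rfl fun p hp => ?_
      rw [hf p (odd_of_mem hz hp)]
      ring
    have h1 := hU κ hκ y r e hy hr hsq hpr
    have h2 := hU κ' hκ' y r e hy hr hsq hpr
    have h3 := ll_nonneg hz hr hpr
    rw [e1]
    rcases hc with rfl | rfl <;> linarith

end Pool.Agent.Y776.Z8
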